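import Pool.Agent.H14R2.RD.Defs

/-! Task EXB (project RC3 of helper14): basic facts on the exponential of endomorphisms. -/

namespace RC14
open scoped InnerProductSpace
open Finset

variable {G : Type*} [Group G]
variable {V : Type*} [NormedAddCommGroup V] [InnerProductSpace ℂ V] [FiniteDimensional ℂ V]

namespace EXB

theorem ex_def (A : Module.End ℂ V) : ex A = (Module.End.toContinuousLinearMap V).symm
    (NormedSpace.exp (Module.End.toContinuousLinearMap V A)) := rfl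

theorem T_ex (A : Module.End ℂ V) : Module.End.toContinuousLinearMap V (ex A) =
    NormedSpace.exp (Module.End.toContinuousLinearMap V A) := by
  rw [ex_def, AlgEquiv.apply_symm_apply]

end EXB

open EXB

theorem ex_symm (A : Module.End ℂ V) (hA : A.IsSymmetric) : (ex A).IsSymmetric := by
  haveI : CompleteSpace V := FiniteDimensional.complete ℂ V
  have h1 : IsSelfAdjoint (Module.End.toContinuousLinearMap V A) :=
    ContinuousLinearMap.isSelfAdjoint_iff_isSymmetric.2 hA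
  have h2 := h1.exp
  exact ContinuousLinearMap.isSelfAdjoint_iff_isSymmetric.1 h2

theorem ex_eig (A : Module.End ℂ V) (v : V) (μ : ℂ) (h : A v = μ • v) :
    ex A v = Complex.exp μ • v := by
  haveI : CompleteSpace V := FiniteDimensional.complete ℂ V
  have hpow : ∀ n : ℕ, ((Module.End.toContinuousLinearMap V A) ^ n) v = μ ^ n • v := by
    intro n
    induction n with
    | zero => simp
    | succ n ih =>
      rw [pow_succ', ContinuousLinearMap.mul_apply, ih, map_smul]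
      have h1 : (Module.End.toContinuousLinearMap V A) v = A v := rfl
      rw [h1, h, smul_smul, pow_succ]
  have h1 := NormedSpace.exp_series_hasSum_exp' (𝕂 := ℂ) (Module.End.toContinuousLinearMap V A)
  have h2 := h1.mapL (ContinuousLinearMap.apply ℂ V v)
  have h3 := NormedSpace.exp_series_hasSum_exp' (𝕂 := ℂ) μ
  have h4 := h3.smul_const v
  have h5 : (fun n : ℕ => (ContinuousLinearMap.apply ℂ V v)
      (((n.factorial : ℂ)⁻¹) • (Module.End.toContinuousLinearMap V A) ^ n)) =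
      fun n : ℕ => (((n.factorial : ℂ)⁻¹) • μ ^ n) • v := by
    funext n
    rw [map_smul, ContinuousLinearMap.apply_apply, hpow, smul_assoc]
  rw [h5] at h2
  have h6 := h2.unique h4
  rw [← Complex.exp_eq_exp_ℂ] at h6
  exact h6

theorem ex_conj (ρ : G →* (V ≃ₗᵢ[ℂ] V)) (A : Module.End ℂ V) (g : G) :
    ex (cj ρ A g) = cj ρ (ex A) g := by
  haveI : CompleteSpace V := FiniteDimensional.complete ℂ V
  letI : NormedAlgebra ℚ (V →L[ℂ] V) := NormedAlgebra.restrictScalars ℚ ℂ (V →L[ℂ] V)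
  have h1 : op ρ g * op ρ g⁻¹ = 1 := by rw [← op_mul, mul_inv_cancel, op_one]
  have h2 : op ρ g⁻¹ * op ρ g = 1 := by rw [← op_mul, inv_mul_cancel, op_one]
  set T := Module.End.toContinuousLinearMap (𝕜 := ℂ) V with hT
  let u : (V →L[ℂ] V)ˣ := ⟨T (op ρ g), T (op ρ g⁻¹), by rw [← map_mul, h1, map_one],
    by rw [← map_mul, h2, map_one]⟩
  apply T.injective
  rw [hT, T_ex]
  unfold cj
  rw [map_mul, map_mul, map_mul, map_mul, T_ex]
  exact NormedSpace.exp_units_conj u (T A)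

theorem ex_nsmul (A : Module.End ℂ V) (n : ℕ) : ex (n • A) = ex A ^ n := by
  haveI : CompleteSpace V := FiniteDimensional.complete ℂ V
  letI : NormedAlgebra ℚ (V →L[ℂ] V) := NormedAlgebra.restrictScalars ℚ ℂ (V →L[ℂ] V)
  apply (Module.End.toContinuousLinearMap (𝕜 := ℂ) V).injective
  rw [T_ex, map_pow, T_ex, map_nsmul, NormedSpace.exp_nsmul]

theorem ex_zero : ex (0 : Module.End ℂ V) = 1 := by
  apply (Module.End.toContinuousLinearMap (𝕜 := ℂ) V).injective
  rw [T_ex, map_zero, NormedSpace.exp_zero, map_one]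

namespace EXB

/-- quadratic form of an operator with a basis of eigenvectors -/
theorem quad {n : ℕ} (b : OrthonormalBasis (Fin n) ℂ V) (B : Module.End ℂ V) (ν : Fin n → ℝ)
    (h : ∀ i, B (b i) = (ν i : ℂ) • b i) (v : V) :
    (⟪B v, v⟫_ℂ).re = ∑ i, ν i * ‖⟪b i, v⟫_ℂ‖ ^ 2 := by
  have h1 : B v = ∑ i, (⟪b i, v⟫_ℂ * (ν i : ℂ)) • b i := by
    conv_lhs => rw [← b.sum_repr' v]
    rw [map_sum]
    refine Finset.sum_congr rfl fun i _ => ?_
    rw [map_smul, h, smul_smul]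
  rw [h1, sum_inner, Complex.re_sum]
  refine Finset.sum_congr rfl fun i _ => ?_
  rw [inner_smul_left, map_mul, Complex.conj_ofReal, mul_right_comm, ← Complex.normSq_eq_conj_mul_self,
    Complex.normSq_eq_norm_sq, ← Complex.ofReal_mul, Complex.ofReal_re]
  ring

theorem tr_eig {n : ℕ} (b : OrthonormalBasis (Fin n) ℂ V) (B : Module.End ℂ V) (ν : Fin n → ℝ)
    (h : ∀ i, B (b i) = (ν i : ℂ) • b i) : rtr B = ∑ i, ν i := by
  unfold rtr
  rw [LinearMap.trace_eq_sum_inner B b, Complex.re_sum]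
  refine Finset.sum_congr rfl fun i _ => ?_
  rw [h, inner_smul_right, inner_self_eq_norm_sq_to_K, b.norm_eq_one]
  simp

theorem sum_w {n : ℕ} (b : OrthonormalBasis (Fin n) ℂ V) (v : V) (hv : ‖v‖ = 1) :
    ∑ i, ‖⟪b i, v⟫_ℂ‖ ^ 2 = 1 := by
  rw [b.sum_sq_norm_inner_right, hv, one_pow]

/-- diagonalisation of `A` and of `ex A` -/
theorem diag (A : Module.End ℂ V) (hA : A.IsSymmetric) :
    ∃ (n : ℕ) (b : OrthonormalBasis (Fin n) ℂ V) (μ : Fin n → ℝ),
      (∀ i, A (b i) = (μ i : ℂ) • b i) ∧ ∀ i, ex A (b i) = ((Real.exp (μ i) : ℝ) : ℂ) • b i := by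
  refine ⟨Module.finrank ℂ V, hA.eigenvectorBasis rfl, hA.eigenvalues rfl, ?_, ?_⟩
  · intro i
    exact hA.apply_eigenvectorBasis rfl i
  · intro i
    rw [ex_eig A _ _ (hA.apply_eigenvectorBasis rfl i), Complex.ofReal_exp]
    rfl

end EXB

theorem ex_pos (A : Module.End ℂ V) (hA : A.IsSymmetric) (v : V) :
    0 ≤ (⟪ex A v, v⟫_ℂ).re := by
  obtain ⟨n, b, μ, -, h2⟩ := diag A hA
  rw [quad b (ex A) (fun i => Real.exp (μ i)) h2 v]
  exact Finset.sum_nonneg fun i _ => by positivity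

/-- Jensen for one vector -/
theorem ex_jensen (A : Module.End ℂ V) (hA : A.IsSymmetric) (v : V) (hv : ‖v‖ = 1) :
    Real.exp (⟪A v, v⟫_ℂ).re ≤ (⟪ex A v, v⟫_ℂ).re := by
  obtain ⟨n, b, μ, h1, h2⟩ := diag A hA
  rw [quad b (ex A) (fun i => Real.exp (μ i)) h2 v, quad b A μ h1 v]
  have h := convexOn_exp.map_sum_le (t := Finset.univ) (w := fun i => ‖⟪b i, v⟫_ℂ‖ ^ 2) (p := μ)
    (fun i _ => by positivity) (sum_w b v hv) (fun i _ => Set.mem_univ _)
  simp only [smul_eq_mul] at h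
  calc Real.exp (∑ i, μ i * ‖⟪b i, v⟫_ℂ‖ ^ 2) = Real.exp (∑ i, ‖⟪b i, v⟫_ℂ‖ ^ 2 * μ i) := by
        congr 1; exact Finset.sum_congr rfl fun i _ => mul_comm _ _
    _ ≤ ∑ i, ‖⟪b i, v⟫_ℂ‖ ^ 2 * Real.exp (μ i) := h
    _ = _ := Finset.sum_congr rfl fun i _ => mul_comm _ _

/-- the trace dominates the quadratic form -/
theorem ex_le_tr (A : Module.End ℂ V) (hA : A.IsSymmetric) (v : V) (hv : ‖v‖ = 1) :
    (⟪ex A v, v⟫_ℂ).re ≤ rtr (ex A) := by
  obtain ⟨n, b, μ, -, h2⟩ := diag A hA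
  rw [quad b (ex A) (fun i => Real.exp (μ i)) h2 v, tr_eig b (ex A) (fun i => Real.exp (μ i)) h2]
  refine Finset.sum_le_sum fun i _ => ?_
  have h3 : ‖⟪b i, v⟫_ℂ‖ ^ 2 ≤ 1 := by
    rw [← sum_w b v hv]
    exact Finset.single_le_sum (f := fun i => ‖⟪b i, v⟫_ℂ‖ ^ 2) (fun i _ => by positivity)
      (Finset.mem_univ i)
  have h4 := Real.exp_pos (μ i)
  nlinarith

end RC14
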